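import Pool.Agent.Helper32.LD.StT1

/-!
# LD project, tiling part: module SB (basic facts on subdivided graphs)
-/

set_option autoImplicit false

namespace Pool.Agent.Helper37.LD

open Pool.Agent.Helper2.LD Pool.Agent.Helper32.LD

private lemma ptE_zero {X E F : Type} (C : MC X E F) (al : ℕ) (ε : E) :
    C.ptE al ε 0 = Sum.inl (C.tl ε) := by
  unfold MC.ptE
  rw [dif_neg (by omega), if_pos rfl]

private lemma ptE_al {X E F : Type} (C : MC X E F) (al : ℕ) (ε : E) (h : 1 ≤ al) :
    C.ptE al ε al = Sum.inl (C.hd ε) := by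
  unfold MC.ptE
  rw [dif_neg (by omega), if_neg (by omega)]

private lemma ptE_mid {X E F : Type} (C : MC X E F) (al : ℕ) (ε : E) (i : ℕ) (h : 0 < i)
    (h' : i < al) : C.ptE al ε i = Sum.inr (ε, ⟨i - 1, by omega⟩) := by
  unfold MC.ptE
  rw [dif_pos ⟨h, h'⟩]

private lemma pt_f {X E F : Type} (C : MC X E F) (al : ℕ) (ε : E) (i : ℕ) :
    C.pt al (ε, false) i = C.ptE al ε i := by
  simp [MC.pt]

private lemma pt_t {X E F : Type} (C : MC X E F) (al : ℕ) (ε : E) (i : ℕ) :
    C.pt al (ε, true) i = C.ptE al ε (al - i) := by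
  simp [MC.pt]

private lemma src_f {X E F : Type} (C : MC X E F) (ε : E) : C.src (ε, false) = C.tl ε := by
  simp [MC.src]

private lemma src_t {X E F : Type} (C : MC X E F) (ε : E) : C.src (ε, true) = C.hd ε := by
  simp [MC.src]

private lemma dst_f {X E F : Type} (C : MC X E F) (ε : E) : C.dst (ε, false) = C.hd ε := by
  simp [MC.dst]

private lemma dst_t {X E F : Type} (C : MC X E F) (ε : E) : C.dst (ε, true) = C.tl ε := by
  simp [MC.dst]

private lemma rev_rev {E : Type} (A : E × Bool) : rev (rev A) = A := by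
  simp [rev]

private lemma src_rev {X E F : Type} (C : MC X E F) (A : E × Bool) :
    C.src (rev A) = C.dst A := by
  obtain ⟨ε, b⟩ := A
  cases b <;> simp [MC.src, MC.dst, rev]

private lemma p0 {X E F : Type} (C : MC X E F) (al : ℕ) (A : E × Bool) (h : 1 ≤ al) :
    C.pt al A 0 = Sum.inl (C.src A) := by
  obtain ⟨ε, b⟩ := A
  cases b
  · rw [pt_f, src_f, ptE_zero]
  · rw [pt_t, src_t, Nat.sub_zero, ptE_al _ _ _ h]

private lemma prev {X E F : Type} (C : MC X E F) (al : ℕ) (A : E × Bool) (i : ℕ) (h : i ≤ al) :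
    C.pt al (rev A) i = C.pt al A (al - i) := by
  obtain ⟨ε, b⟩ := A
  cases b
  · show C.pt al (ε, true) i = _
    rw [pt_t, pt_f]
  · show C.pt al (ε, false) i = _
    rw [pt_t, pt_f]
    congr 1
    omega

private lemma pal {X E F : Type} (C : MC X E F) (al : ℕ) (A : E × Bool) (h : 1 ≤ al) :
    C.pt al A al = Sum.inl (C.dst A) := by
  have h1 := prev C al (rev A) al le_rfl
  rw [rev_rev, Nat.sub_self, p0 _ _ _ h, src_rev] at h1
  exact h1

private lemma pmid {X E F : Type} (C : MC X E F) (al : ℕ) (A : E × Bool) (i : ℕ) (h : 0 < i)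
    (h' : i < al) : ∃ k : Fin (al - 1), C.pt al A i = Sum.inr (A.1, k) ∧
      (A.2 = false → (k : ℕ) = i - 1) ∧ (A.2 = true → (k : ℕ) = al - i - 1) := by
  obtain ⟨ε, b⟩ := A
  cases b
  · rw [pt_f, ptE_mid _ _ _ _ h h']
    exact ⟨_, rfl, fun _ => rfl, fun h => by simp at h⟩
  · rw [pt_t, ptE_mid _ _ _ _ (by omega) (by omega)]
    exact ⟨_, rfl, fun h => by simp at h, fun _ => rfl⟩

private lemma pinter {X E F : Type} (C : MC X E F) (al : ℕ) (A B : E × Bool) (i j : ℕ)
    (hi : 0 < i) (hi' : i < al) (hj : j ≤ al) (he : C.pt al A i = C.pt al B j) :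
    (B = A ∧ j = i) ∨ (B = rev A ∧ j = al - i) := by
  obtain ⟨k, hk, hk1, hk2⟩ := pmid C al A i hi hi'
  rw [hk] at he
  rcases Nat.eq_zero_or_pos j with hj0 | hj0
  · subst hj0
    rw [p0 _ _ _ (by omega)] at he
    simp at he
  rcases Nat.lt_or_ge j al with hj1 | hj1
  · obtain ⟨l, hl, hl1, hl2⟩ := pmid C al B j hj0 hj1
    rw [hl] at he
    have he' := Sum.inr.inj he
    have e1 : A.1 = B.1 := (Prod.mk.inj he').1
    have e2 : k = l := (Prod.mk.inj he').2
    obtain ⟨ε, b⟩ := A
    obtain ⟨ε', b'⟩ := B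
    simp only at e1
    subst e1
    subst e2
    cases b <;> cases b'
    · left
      have a1 := hk1 rfl
      have a2 := hl1 rfl
      exact ⟨rfl, by omega⟩
    · right
      have a1 := hk1 rfl
      have a2 := hl2 rfl
      exact ⟨rfl, by omega⟩
    · right
      have a1 := hk2 rfl
      have a2 := hl1 rfl
      exact ⟨rfl, by omega⟩
    · left
      have a1 := hk2 rfl
      have a2 := hl2 rfl
      exact ⟨rfl, by omega⟩
  · have : j = al := by omega
    subst this
    rw [pal _ _ _ (by omega)] at he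
    simp at he

private lemma pne {X E F : Type} (C : MC X E F) (al : ℕ) (h : ∀ ε, C.tl ε ≠ C.hd ε)
    (hal : 1 ≤ al) (A : E × Bool) (i : ℕ) (hi : i < al) : C.pt al A i ≠ C.pt al A (i + 1) := by
  intro he
  rcases Nat.eq_zero_or_pos i with h0 | h0
  · subst h0
    rcases Nat.lt_or_ge 1 al with h1 | h1
    · have := pinter C al A A (0 + 1) 0 (by omega) (by omega) (by omega) he.symm
      rcases this with ⟨_, h2⟩ | ⟨h2, _⟩
      · omega
      · have := congrArg Prod.snd h2
        simp [rev] at this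
    · have hal1 : al = 1 := by omega
      subst hal1
      rw [p0 _ _ _ hal, show (0 + 1 : ℕ) = 1 from rfl, pal _ _ _ hal] at he
      have he' := Sum.inl.inj he
      obtain ⟨ε, b⟩ := A
      cases b
      · rw [src_f, dst_f] at he'
        exact h ε he'
      · rw [src_t, dst_t] at he'
        exact h ε he'.symm
  · have := pinter C al A A i (i + 1) h0 hi (by omega) he
    rcases this with ⟨_, h2⟩ | ⟨h2, _⟩
    · omega
    · have := congrArg Prod.snd h2
      simp [rev] at this

private lemma sadj {X E F : Type} (C : MC X E F) (al : ℕ) (x y : SV X E al)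
    (h : (C.sub al).Adj x y) : ∃ (A : E × Bool) (i : ℕ), i < al ∧ x = C.pt al A i ∧
      y = C.pt al A (i + 1) := by
  unfold MC.sub at h
  rw [SimpleGraph.fromRel_adj] at h
  obtain ⟨_, ⟨A, i, hi, hx, hy⟩ | ⟨A, i, hi, hy, hx⟩⟩ := h
  · exact ⟨A, i, hi, hx, hy⟩
  · refine ⟨rev A, al - (i + 1), by omega, ?_, ?_⟩
    · rw [prev _ _ _ _ (by omega), hx]
      congr 1
      omega
    · rw [prev _ _ _ _ (by omega), hy]
      congr 1
      omega

private lemma cast5 (a : ℕ) : ((a + 5 : ℕ) : ZMod 5) = (a : ZMod 5) := by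
  push_cast
  have : (5 : ZMod 5) = 0 := by decide
  rw [this, add_zero]

private lemma fper' {X E F : Type} (C : MC X E F) (al : ℕ) (f : F) (j : ℕ) (h : 1 ≤ al) :
    C.fpt al f (j + 5 * al) = C.fpt al f j := by
  unfold MC.fpt
  have h1 : (j + 5 * al) / al = j / al + 5 := by
    rw [Nat.add_mul_div_right _ _ (by omega)]
  have h2 : (j + 5 * al) % al = j % al := by
    rw [Nat.add_mul_mod_self_right]
  rw [h1, h2, cast5]

private lemma fperk {X E F : Type} (C : MC X E F) (al : ℕ) (f : F) (j k : ℕ) (h : 1 ≤ al) :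
    C.fpt al f (j + k * (5 * al)) = C.fpt al f j := by
  induction k with
  | zero => simp
  | succ k ih =>
    rw [Nat.succ_mul, ← Nat.add_assoc, fper' _ _ _ _ h, ih]

private lemma fmod {X E F : Type} (C : MC X E F) (al : ℕ) (f : F) (j : ℕ) (h : 1 ≤ al) :
    C.fpt al f (j % (5 * al)) = C.fpt al f j := by
  conv_rhs => rw [← Nat.mod_add_div j (5 * al), Nat.mul_comm (5 * al)]
  rw [fperk _ _ _ _ _ h]

private lemma fcongr {X E F : Type} (C : MC X E F) (al : ℕ) (f : F) (i j : ℕ) (h : 1 ≤ al)
    (hij : i % (5 * al) = j % (5 * al)) : C.fpt al f i = C.fpt al f j := by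
  rw [← fmod C al f i h, ← fmod C al f j h, hij]

private lemma nxit {X E F Λ B FB : Type} (C : MC X E F) (al : ℕ) (lb : SV X E al → Λ)
    (bs : Λ → B) (fl : F → FB) (q : F × ZMod (5 * al)) (j : ℕ) :
    ((C.core al lb bs fl).nx^[j]) q = (q.1, q.2 + (j : ZMod (5 * al))) := by
  induction j with
  | zero => simp
  | succ j ih =>
    rw [Function.iterate_succ', Function.comp_apply, ih]
    show ((Equiv.prodCongr (Equiv.refl F) (Equiv.addRight (1 : ZMod (5 * al))))
      (q.1, q.2 + (j : ZMod (5 * al)))) = _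
    simp [add_assoc]

private lemma nxsit {X E F Λ B FB : Type} (C : MC X E F) (al : ℕ) (lb : SV X E al → Λ)
    (bs : Λ → B) (fl : F → FB) (q : F × ZMod (5 * al)) (j : ℕ) :
    ((C.core al lb bs fl).nx.symm^[j]) q = (q.1, q.2 - (j : ZMod (5 * al))) := by
  induction j with
  | zero => simp
  | succ j ih =>
    rw [Function.iterate_succ', Function.comp_apply, ih]
    show ((Equiv.prodCongr (Equiv.refl F) (Equiv.addRight (1 : ZMod (5 * al)))).symm
      (q.1, q.2 - (j : ZMod (5 * al)))) = _
    simp [sub_eq_add_neg, add_assoc, add_comm]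

theorem tSB : StSB where
  pt0 := fun C al A h => p0 C al A h
  ptal := fun C al A h => pal C al A h
  ptrev := fun C al A i h => prev C al A i h
  inter := fun C al A B i j hi hi' hj he => pinter C al A B i j hi hi' hj he
  cover := by
    intro X E F C al x
    rcases x with v | ⟨ε, k⟩
    · exact Or.inl ⟨v, rfl⟩
    · right
      have hk := k.2
      refine ⟨ε, (k : ℕ) + 1, by omega, by omega, ?_⟩
      rw [pt_f, ptE_mid _ _ _ _ (by omega) (by omega)]
      rfl
  adj := by
    intro X E F C al hne hal A i hi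
    unfold MC.sub
    rw [SimpleGraph.fromRel_adj]
    exact ⟨pne C al hne hal A i hi, Or.inl ⟨A, i, hi, rfl, rfl⟩⟩
  nbI := by
    intro X E F C al A i y hi hi' h
    obtain ⟨B, j, hj, h1, h2⟩ := sadj C al _ _ h
    rcases pinter C al A B i j hi hi' (by omega) h1 with ⟨hB, hji⟩ | ⟨hB, hji⟩
    · subst hB
      subst hji
      exact Or.inr h2
    · left
      rw [h2, hB, prev _ _ _ _ (by omega)]
      congr 1
      omega
  nbM := by
    intro X E F C al v y hal h
    obtain ⟨B, j, hj, h1, h2⟩ := sadj C al _ _ h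
    rcases Nat.eq_zero_or_pos j with h0 | h0
    · subst h0
      rw [p0 _ _ _ hal] at h1
      exact ⟨B, (Sum.inl.inj h1).symm, h2⟩
    · obtain ⟨k, hk, _⟩ := pmid C al B j h0 hj
      rw [hk] at h1
      simp at h1
  fper := fun C al f j h => fper' C al f j h
  fptE := by
    intro X E F C al f i j hC hal hj
    rcases Nat.lt_or_ge j al with h1 | h1
    · unfold MC.fpt
      have e1 : (i * al + j) / al = i := by
        rw [Nat.add_comm, Nat.add_mul_div_right _ _ (by omega), Nat.div_eq_of_lt h1, Nat.zero_add]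
      have e2 : (i * al + j) % al = j := by
        rw [Nat.add_comm, Nat.add_mul_mod_self_right, Nat.mod_eq_of_lt h1]
      rw [e1, e2]
    · have hj' : j = al := by omega
      subst hj'
      unfold MC.fpt
      have e1 : (i * j + j) / j = i + 1 := by
        rw [Nat.add_comm, Nat.add_mul_div_right _ _ (by omega), Nat.div_self (by omega),
          Nat.add_comm]
      have e2 : (i * j + j) % j = 0 := by
        rw [Nat.add_comm, Nat.add_mul_mod_self_right, Nat.mod_self]
      rw [e1, e2, p0 _ _ _ hal, pal _ _ _ hal, hC.fc]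
      push_cast
      rfl
  nxt := by
    intro X E F Λ B FB C al lb bs fl q j hal
    rw [nxit]
    show C.fpt al q.1 (q.2 + (j : ZMod (5 * al))).val = _
    have : NeZero (5 * al) := ⟨by omega⟩
    apply fcongr _ _ _ _ _ hal
    rw [ZMod.val_add, ZMod.val_natCast]
    simp [Nat.add_mod]
  nxtS := by
    intro X E F Λ B FB C al lb bs fl q j hal
    rw [nxsit]
    show C.fpt al q.1 (q.2 - (j : ZMod (5 * al))).val = _
    have : NeZero (5 * al) := ⟨by omega⟩
    apply fcongr _ _ _ _ _ hal
    have h1 : q.2 - (j : ZMod (5 * al)) =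
        ((q.2.val + (5 * al - 1) * j : ℕ) : ZMod (5 * al)) := by
      have h2 : ((5 * al - 1 : ℕ) : ZMod (5 * al)) = -1 := by
        have h3 : ((5 * al - 1 + 1 : ℕ) : ZMod (5 * al)) = 0 := by
          rw [Nat.sub_add_cancel (by omega)]
          exact ZMod.natCast_self _
        rw [Nat.cast_add, Nat.cast_one] at h3
        exact eq_neg_of_add_eq_zero_left h3
      rw [Nat.cast_add, Nat.cast_mul, h2, ZMod.natCast_zmod_val]
      ring
    rw [h1, ZMod.val_natCast, Nat.mod_mod]
  sur := by
    intro F al f j hal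
    have : NeZero (5 * al) := ⟨by omega⟩
    exact ⟨(f, (j : ZMod (5 * al))), rfl, by simp [ZMod.val_natCast]⟩

end Pool.Agent.Helper37.LD
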