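import Pool.Agent.Helper32.LD.StT1

/-!
# LD project, tiling part: module FI (face boundaries are injective)
-/

set_option autoImplicit false

namespace Pool.Agent.Helper37.LD

open Pool.Agent.Helper2.LD Pool.Agent.Helper32.LD

private lemma fi_src_rev {X E F : Type} (C : MC X E F) (A : E × Bool) :
    C.src (rev A) = C.dst A := by
  obtain ⟨ε, b⟩ := A
  cases b <;> simp [MC.src, MC.dst, rev]

private lemma fi_dst_rev {X E F : Type} (C : MC X E F) (A : E × Bool) :
    C.dst (rev A) = C.src A := by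
  obtain ⟨ε, b⟩ := A
  cases b <;> simp [MC.src, MC.dst, rev]

private lemma fi_perk (hSB : StSB) {X E F : Type} (C : MC X E F) (al : ℕ) (f : F) (j k : ℕ)
    (h : 1 ≤ al) : C.fpt al f (j + k * (5 * al)) = C.fpt al f j := by
  induction k with
  | zero => simp
  | succ k ih =>
    rw [Nat.succ_mul, ← Nat.add_assoc, hSB.fper _ _ _ _ h, ih]

private lemma fi_mod (hSB : StSB) {X E F : Type} (C : MC X E F) (al : ℕ) (f : F) (j : ℕ)
    (h : 1 ≤ al) : C.fpt al f (j % (5 * al)) = C.fpt al f j := by
  conv_rhs => rw [← Nat.mod_add_div j (5 * al), Nat.mul_comm (5 * al)]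
  rw [fi_perk hSB _ _ _ _ _ h]

private lemma fi_eq (hSB : StSB) {X E F : Type} (C : MC X E F) (al : ℕ) (hC : MCAx C)
    (hal : 4 ≤ al) (f : F) (i : ℕ) :
    C.fpt al f i = C.pt al (C.arc f ((i / al : ℕ) : ZMod 5)) (i % al) ∧
    C.fpt al f (i + 1) = C.pt al (C.arc f ((i / al : ℕ) : ZMod 5)) (i % al + 1) := by
  have h1 : i % al < al := Nat.mod_lt _ (by omega)
  have h2 : i = i / al * al + i % al := (Nat.div_add_mod' i al).symm
  constructor
  · conv_lhs => rw [h2]
    exact hSB.fptE C al f _ _ hC (by omega) h1.le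
  · conv_lhs => rw [h2, Nat.add_assoc]
    exact hSB.fptE C al f _ _ hC (by omega) h1

private lemma fi_cast (a b : ℕ) (ha : a < 5) (hb : b < 5) (h : (a : ZMod 5) = (b : ZMod 5)) :
    a = b := by
  have h1 := congrArg ZMod.val h
  rw [ZMod.val_natCast, ZMod.val_natCast, Nat.mod_eq_of_lt ha, Nat.mod_eq_of_lt hb] at h1
  exact h1

private lemma fi_inj (hSB : StSB) {X E F : Type} (C : MC X E F) (al : ℕ) (hC : MCAx C)
    (hal : 4 ≤ al) (f : F) (i j : ℕ) (hi : i < 5 * al) (hj : j < 5 * al)
    (he : C.fpt al f i = C.fpt al f j) : i = j := by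
  have hr : i % al < al := Nat.mod_lt _ (by omega)
  have hs : j % al < al := Nat.mod_lt _ (by omega)
  have ha : i / al < 5 := by
    rw [Nat.div_lt_iff_lt_mul (by omega)]
    exact hi
  have hb : j / al < 5 := by
    rw [Nat.div_lt_iff_lt_mul (by omega)]
    exact hj
  have hii : i = i / al * al + i % al := (Nat.div_add_mod' i al).symm
  have hjj : j = j / al * al + j % al := (Nat.div_add_mod' j al).symm
  rw [(fi_eq hSB C al hC hal f i).1, (fi_eq hSB C al hC hal f j).1] at he
  generalize i / al = a at *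
  generalize j / al = b at *
  generalize i % al = r at *
  generalize j % al = s at *
  have key : a = b ∧ r = s := by
    rcases Nat.eq_zero_or_pos r with hr0 | hr0
    · rcases Nat.eq_zero_or_pos s with hs0 | hs0
      · rw [hr0, hs0, hSB.pt0 _ _ _ (by omega), hSB.pt0 _ _ _ (by omega)] at he
        exact ⟨fi_cast _ _ ha hb (hC.fd _ _ _ (Sum.inl.inj he)), by omega⟩
      · exfalso
        rcases hSB.inter C al _ _ _ _ hs0 hs hr.le he.symm with ⟨_, h⟩ | ⟨_, h⟩ <;> omega
    · rcases hSB.inter C al _ _ _ _ hr0 hr hs.le he with ⟨h1, h2⟩ | ⟨h1, h2⟩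
      · refine ⟨fi_cast _ _ ha hb (hC.fd f _ _ ?_), h2.symm⟩
        rw [h1]
      · exfalso
        have e1 : ((b : ℕ) : ZMod 5) = (a : ZMod 5) + 1 := by
          apply hC.fd f
          rw [h1, fi_src_rev, hC.fc]
        have e2 : ((b : ℕ) : ZMod 5) + 1 = (a : ZMod 5) := by
          apply hC.fd f
          rw [← hC.fc, h1, fi_dst_rev]
        rw [e1] at e2
        have e3 : ((1 : ZMod 5) + 1) = 0 := by
          have := congrArg (fun z => z - (a : ZMod 5)) e2
          simp only [sub_self] at this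
          rw [← this]
          ring
        exact absurd e3 (by decide)
  rw [hii, hjj, key.1, key.2]

/-- **Module FI.** -/
theorem tFI (hSB : StSB) : StFI := by
  intro X E F C al hC hal f
  refine ⟨?_, ?_, fun i j hi hj he => fi_inj hSB C al hC hal f i j hi hj he⟩
  · intro i
    rw [(fi_eq hSB C al hC hal f i).1, (fi_eq hSB C al hC hal f i).2]
    exact hSB.adj C al hC.ne (by omega) _ _ (Nat.mod_lt _ (by omega))
  · intro i he
    rw [← fi_mod hSB C al f i (by omega), ← fi_mod hSB C al f (i + 2) (by omega)] at he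
    have h1 := fi_inj hSB C al hC hal f _ _ (Nat.mod_lt _ (by omega))
      (Nat.mod_lt _ (by omega)) he
    have h2 : (i + 2) % (5 * al) = (i % (5 * al) + 2) % (5 * al) := by
      rw [Nat.mod_add_mod]
    have h3 : i % (5 * al) < 5 * al := Nat.mod_lt _ (by omega)
    rw [h2] at h1
    generalize i % (5 * al) = x at *
    rcases Nat.lt_or_ge (x + 2) (5 * al) with h4 | h4
    · rw [Nat.mod_eq_of_lt h4] at h1
      omega
    · rw [Nat.mod_eq_sub_mod h4, Nat.mod_eq_of_lt (by omega)] at h1
      omega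

end Pool.Agent.Helper37.LD
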